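import Mathlib
import Pool.Agent.Q18.P.Pairs

/-!
# Selberg's eigenvalue conjecture: correlations of two forms, and single even characters

Let `f_j`, `j ∈ J`, be Maass newforms for congruence subgroups (of any levels), with Laplace eigenvalues
`λ_j = 1/4 - r_j²`, `Re r_j ≥ 0`, and Satake parameters `α_{j,p}, β_{j,p}` at the primes outside the finite set `S`, which
contains the primes dividing the levels (and the conductors below).  Write `τ_j(p, k) = tr Sym⁴ diag(α_{j,p}, β_{j,p})^k`;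
so `τ_j(p, 1) = λ_{f_j}(p⁴)`.

Let `(j_i, l_i, χ_i)`, `i ∈ I`, be a finite family of triples, `χ_i` even Dirichlet characters, such that for each `i`
`L(s, Sym⁴ f_{j_i} × Sym⁴ f_{l_i}~ × χ_i)` has no pole (that is, `Sym⁴ f_{l_i}` is not `Sym⁴ f_{j_i} × χ_i`), and such that the
coefficients `A(p, k) = ∑_i τ_{j_i}(p, k) \bar τ_{l_i}(p, k) χ_i(p)^k` are real.  For example

* (one form, one character) `χ, \bar χ`, `χ ≠ 1` even (`Sym⁴ f ≠ Sym⁴ f × χ`): `A(p, k) = 2 Re χ(p)^k |τ(p, k)|²`;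
* (pairs) all ordered pairs `j ≠ l` of a finite set of forms, `χ = 1`:
  `A(p, k) = |∑_j τ_j(p, k)|² - ∑_j |τ_j(p, k)|²`.

**Theorem.**  Let `c > 0`, `0 < δ < 1`.  Suppose that for some `κ`, `B` there are arbitrarily large `Y` with

  `∫_{Y^{1-δ}}^Y max(-∑_{p^k ≤ y} A(p, k) / (k p^{kc}) - κ log log y, 0) dy / y ≤ B log Y`

- a bound from ONE side in the logarithmic mean, on one arbitrarily sparse sequence of windows.  Then

1. `√(1/4 - λ_{j_i}) + √(1/4 - λ_{l_i}) ≤ c / 4` for all `i` (`√x = 0` for `x < 0`): so at least one of the two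
   eigenvalues is `≥ 1/4 - (c/8)²`, and if `j_i = l_i`, `λ_{j_i} ≥ 1/4 - (c/8)²`;
2. none of the functions `L^S(s, Sym⁴ f_{j_i} × Sym⁴ f_{l_i}~ × χ_i)` has a zero with `Re s > c`;
3. the number of the `i` with `λ_{j_i}, λ_{l_i} ≤ 1/4` and equality in 1. is at most `κ`.

So: (one form) if `λ_f < 1/4 - (c/8)²`, then for EVERY even character `χ ≠ 1` the sum `∑ Re χ(p)^k |τ(p, k)|² / (k p^{kc})` has,
in every window, negative values which are large in the mean; one character for which this is not so, on one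
sequence of windows, proves `λ_f ≥ 1/4 - (c/8)²`, with `>` if `κ < 2`.  (Pairs) if the off-diagonal correlation sum of a
finite set of forms is not very negative on one sequence of windows, at most ONE of the forms has an eigenvalue
`< 1/4 - (c/8)²`; `c < 7/8` is below the bound of Kim and Sarnak.

`CriticalMeans` and `SplitPrimesBias` of this problem compare sums of `|λ_f(p⁴)|²` over the primes which split in an
abelian field (the trivial character is one of the characters) with `ζ`; here no diagonal term and no comparison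
with `ζ` occurs, one nontrivial character suffices, and two different forms can be correlated.

What is used (`EntireWithZero`) is known: `Sym⁴ f` is cuspidal on `GL_5` (Kim, Kim-Shahidi; if `λ_f < 1/4`), otherwise
automorphic; the Rankin-Selberg Euler product converges absolutely for `Re s > 1`; it is entire, and so is the completed
function, one of whose Gamma factors is `Γ_ℝ(s - 4 r - 4 r')`, as `Sym⁴ f_∞`, `Sym⁴ g_∞` contain `|·|^{±4r}`, `|·|^{±4r'}` and `χ`
is even.  The proof: `U(s) = ∏_i L^S(s, ...)` is entire and vanishes at `4 (r_{j_i} + r_{l_i})`; the hypothesis bounds the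
positive part of `-∑_{q ≤ y} d(q) q^{-c}`, `d` the coefficients of `log U`; a comparison of the Laplace transform with
the logarithmic means excludes zeros to the right of `c` and bounds the order at `c` by `κ`.
-/

set_option autoImplicit false

namespace Pool.Agent.Results.MP_a812b2_nt.CorrelationBias

open Pool.Agent.Q18.P
open Pool.Agent.W189.TP (PS)

/-- `tr Sym⁴ diag(α, β)^k` -/
def tau (x : ℂ × ℂ) (k : ℕ) : ℂ :=
  (x.1 ^ 4) ^ k + (x.1 ^ 3 * x.2) ^ k + (x.1 ^ 2 * x.2 ^ 2) ^ k + (x.1 * x.2 ^ 3) ^ k + (x.2 ^ 4) ^ k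

/-- `τ_f(p, k) \bar τ_g(p, k) χ(p)^k` -/
def coeff {S : Finset Nat.Primes} (f g : PS S → ℂ × ℂ) (χ : PS S → ℂ) (p : PS S) (k : ℕ) : ℂ :=
  tau (f p) k * (starRingEnd ℂ) (tau (g p) k) * χ p ^ k

theorem re_eq {z : ℂ} {x : ℝ} (h : z ^ 2 = (x : ℂ)) (h0 : 0 ≤ z.re) : z.re = Real.sqrt x := by
  have h1 : z.re * z.re - z.im * z.im = x := by
    have := congrArg Complex.re h
    rw [pow_two, Complex.mul_re, Complex.ofReal_re] at this
    exact this
  have h2 : z.re * z.im + z.im * z.re = 0 := by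
    have := congrArg Complex.im h
    rw [pow_two, Complex.mul_im, Complex.ofReal_im] at this
    exact this
  have h3 : z.re * z.im = 0 := by linarith
  rcases mul_eq_zero.1 h3 with h4 | h4
  · rw [h4] at h1 ⊢
    rw [Real.sqrt_eq_zero_of_nonpos (by nlinarith [mul_self_nonneg z.im])]
  · rw [h4] at h1
    rw [← h1, mul_zero, sub_zero, Real.sqrt_mul_self h0]

theorem real_of {z : ℂ} {x : ℝ} (h : z ^ 2 = (x : ℂ)) (h0 : 0 ≤ z.re) (hx : 0 ≤ x) : z = ((Real.sqrt x : ℝ) : ℂ) := by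
  have h1 := re_eq h h0
  refine Complex.ext (by rw [Complex.ofReal_re, h1]) ?_
  rw [Complex.ofReal_im]
  have h2 : z.re * z.re - z.im * z.im = x := by
    have := congrArg Complex.re h
    rw [pow_two, Complex.mul_re, Complex.ofReal_re] at this
    exact this
  rw [h1, Real.mul_self_sqrt hx] at h2
  nlinarith

open scoped Classical in
/-- **Correlations of Hecke eigenvalues of Maass forms and small eigenvalues of the Laplacian.** -/
theorem result {S : Finset Nat.Primes} {J I : Type} [Fintype I] (f : J → PS S → ℂ × ℂ) (lam : J → ℝ) (r : J → ℂ)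
    (hr : ∀ j, r j ^ 2 = ((1 / 4 - lam j : ℝ) : ℂ) ∧ 0 ≤ (r j).re) (a b : I → J) (χ : I → PS S → ℂ)
    (h : ∀ i, EntireWithZero (coeff (f (a i)) (f (b i)) (χ i)) (4 * (r (a i) + r (b i))))
    (hreal : ∀ p k, (∑ i, coeff (f (a i)) (f (b i)) (χ i) p k).im = 0) {c δ κ B : ℝ} (hc : 0 < c) (h0 : 0 < δ)
    (h1 : δ < 1)
    -- the one-sided bound in the mean, on one sequence of windows
    (hY : ∀ Y₀ : ℝ, ∃ Y : ℝ, Y₀ ≤ Y ∧ ∫ y in (Y ^ (1 - δ))..Y,
      max ((-∑' x : PS S × ℕ, if ((x.1.1 : ℕ) : ℝ) ^ (x.2 + 1) ≤ y then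
        (∑ i, coeff (f (a i)) (f (b i)) (χ i) x.1 (x.2 + 1)).re / ((x.2 : ℝ) + 1) *
          (((x.1.1 : ℕ) : ℝ) ^ (-c)) ^ (x.2 + 1) else 0) - κ * Real.log (Real.log y)) 0 / y ≤ B * Real.log Y) :
    -- the eigenvalues
    (∀ i, Real.sqrt (1 / 4 - lam (a i)) + Real.sqrt (1 / 4 - lam (b i)) ≤ c / 4) ∧
    (∀ i, 1 / 4 - (c / 8) ^ 2 ≤ lam (a i) ∨ 1 / 4 - (c / 8) ^ 2 ≤ lam (b i)) ∧
    -- the zeros
    (∀ (i : I) (V : ℂ → ℂ), Differentiable ℂ V →
      (∀ s : ℂ, 1 < s.re → V s = Complex.exp (logS (coeff (f (a i)) (f (b i)) (χ i)) s)) →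
      ∀ s : ℂ, c < s.re → V s ≠ 0) ∧
    -- equality
    ((Nat.card {i : I // lam (a i) ≤ 1 / 4 ∧ lam (b i) ≤ 1 / 4 ∧
      Real.sqrt (1 / 4 - lam (a i)) + Real.sqrt (1 / 4 - lam (b i)) = c / 4} : ℕ) : ℝ) ≤ κ := by
  have hB : OneSidedMean δ κ B (minusSum (fun i => coeff (f (a i)) (f (b i)) (χ i)) c) := fun Y₀ => hY Y₀
  obtain ⟨k1, k2, k3⟩ := pairs_crit h hreal hc h0 h1 hB
  have hsum : ∀ i, Real.sqrt (1 / 4 - lam (a i)) + Real.sqrt (1 / 4 - lam (b i)) ≤ c / 4 := by
    intro i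
    have h2 := k1 i
    rw [show (4 * (r (a i) + r (b i)) : ℂ) = ((4 : ℝ) : ℂ) * (r (a i) + r (b i)) by push_cast; ring,
      Complex.re_ofReal_mul, Complex.add_re, re_eq (hr (a i)).1 (hr (a i)).2, re_eq (hr (b i)).1 (hr (b i)).2] at h2
    linarith
  refine ⟨hsum, fun i => ?_, k2, ?_⟩
  · by_contra hcon
    push Not at hcon
    obtain ⟨h2, h3⟩ := hcon
    have h4 : c / 8 < Real.sqrt (1 / 4 - lam (a i)) := by
      rw [Real.lt_sqrt (by positivity)]
      linarith
    have h5 : c / 8 < Real.sqrt (1 / 4 - lam (b i)) := by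
      rw [Real.lt_sqrt (by positivity)]
      linarith
    linarith [hsum i]
  · refine le_trans ?_ k3
    have hinj : ∀ i : I, (lam (a i) ≤ 1 / 4 ∧ lam (b i) ≤ 1 / 4 ∧
        Real.sqrt (1 / 4 - lam (a i)) + Real.sqrt (1 / 4 - lam (b i)) = c / 4) →
        4 * (r (a i) + r (b i)) = (c : ℂ) := by
      rintro i ⟨h2, h3, h4⟩
      rw [real_of (hr (a i)).1 (hr (a i)).2 (by linarith), real_of (hr (b i)).1 (hr (b i)).2 (by linarith),
        ← Complex.ofReal_add, h4]
      push_cast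
      ring
    exact_mod_cast Nat.card_le_card_of_injective
      (fun x : {i : I // lam (a i) ≤ 1 / 4 ∧ lam (b i) ≤ 1 / 4 ∧
        Real.sqrt (1 / 4 - lam (a i)) + Real.sqrt (1 / 4 - lam (b i)) = c / 4} =>
        (⟨x.1, hinj x.1 x.2⟩ : {i : I // 4 * (r (a i) + r (b i)) = (c : ℂ)}))
      (fun x y hxy => Subtype.ext (Subtype.mk.inj hxy))

end Pool.Agent.Results.MP_a812b2_nt.CorrelationBias
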