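import Mathlib
import Pool.Agent.Q18.P.RS4
import Pool.Agent.Q12.WN.SphPi

/-!
# Selberg's eigenvalue conjecture: an eigenvalue `≤ 1/4 - (c/8)²` makes logarithmic means over split primes unbounded

Let `f` be a Maass cusp form for a congruence subgroup, a newform of level `N`, with Laplace eigenvalue
`0 < λ < 1/4`, i.e. a counterexample to Selberg's conjecture (a nonconstant square-integrable eigenfunction with
`0 < λ < 1/4` on any congruence surface is a combination of such forms, their oldforms and their translates).  Let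
`α_p, β_p` be its Satake parameters and `λ_f(p⁴) = α_p⁴ + α_p³β_p + α_p²β_p² + α_pβ_p³ + β_p⁴` the normalised
eigenvalues of `T_{p⁴}`.  Let `X` be any group of Dirichlet characters modulo `q`, `S` a finite set of primes which contains
the primes dividing `N q`, and `S_X` the set of the primes `p ∉ S` with `χ(p) = 1` for all `χ ∈ X`, i.e. which split
completely in the abelian number field which belongs to `X` (for the group of all characters: `p ≡ 1 mod q`).  For `c > 0`
put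

  `T_c(y) = log ∏_{p ≤ y} (1 - p^{-c})⁻¹ - |X| ∑_{p ≤ y, p ∈ S_X} |λ_f(p⁴)|² p^{-c}`.

If the Riemann hypothesis and the Ramanujan-Selberg conjecture held for the functions in question, `T_c(y)` would be
`m log log y + O(1)` for `c > 1/2`, with `m` the order of `∏_{χ ∈ X} L^S(s, Sym⁴ f × Sym⁴ f~ × χ) / ζ(s)` at `s = c`.

**Theorem.**  Let `c > 0` and `0 < δ < 1`.

(i) If `λ < 1/4 - (c/8)²` or `|log_p |α_p|| > c/8` for one prime `p ∉ S`, or if
`∏_{χ ∈ X} L^S(s, Sym⁴ f × Sym⁴ f~ × χ) / ζ(s)` has a zero or a pole with real part `> c`, then, for every `X`, every `ρ` and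
every `B`, for ALL large `Y`

  `∫_{Y^{1-δ}}^Y max(T_c(y) - ρ log log y, 0) dy / y > B log Y`:

the logarithmic mean of the positive part tends to infinity in every window.

(ii) For `ρ < 1` this holds also if only `λ ≤ 1/4 - (c/8)²` or `|log_p |α_p|| ≥ c/8` for one `p ∉ S`.

Contrapositively: if for ONE `q` and ONE group `X` of characters modulo `q`, one `c`, one `ρ < 1` and one sequence
`Y → ∞` the one-sided mean is bounded, then `λ > 1/4 - (c/8)²`, better than the bound `λ ≥ 975/4096 = 1/4 - (7/64)²` of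
Kim and Sarnak for `c ≤ 7/8`; for `c → 1/2` one gets `63/256`.

`SplitPrimesBias` of this problem (this run) shows, for `c ≥ 1/2` and `λ < 1/4 - (c/8)²`, that
`∑_{p ≤ x, p ∈ S_X} |λ_f(p⁴)|² ≤ π(x) / |X| - A x^c` for SOME `x` in every window, and says nothing in the limiting case
`λ = 1/4 - (c/8)²` (for instance about `λ = 975/4096` and `c = 7/8`).  Here the statement is about the mean over
the window, and the limiting case is included.

The structure `ExceptionalMaassForm` lists what is used of `f`.  By Kim, `Sym⁴ f` is an automorphic representation of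
`GL_5`, cuspidal by Kim and Shahidi (for `0 < λ < 1/4` the form `f` is not dihedral, tetrahedral or octahedral, as those
have `λ ≥ 1/4`).  `IsobaricRep` with `n = 5`, `r = 1`: the local components of `Sym⁴ f` at `p ∉ S` are unitary; the
Rankin-Selberg series converges absolutely for `Re s > 1`; `L(s, Sym⁴ f × Sym⁴ f~)` has a simple pole at `s = 1`, Euler
factors of degree `≤ 25` at `p ∈ S`, and the completed function, with the archimedean factor `∏ Γ_ℝ(s + κ_j)`, times
`s (s - 1)` is entire; `Γ_ℝ(s - 8 r)`, `r = √(1/4 - λ)`, is one of its archimedean factors.  For `χ ≠ 1` the twist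
`L^S(s, Sym⁴ f × Sym⁴ f~ × χ)` is entire: otherwise `Sym⁴ f ⊗ χ ≅ Sym⁴ f`, `χ` would have order `5`, and `Sym⁴ f` would be
induced from a unitary Hecke character of a cyclic quintic field (Arthur, Clozel), hence tempered at infinity, which it is
not.

The proof: `F(s) = ∏_{χ ∈ X} L^S(s, Sym⁴ f × Sym⁴ f~ × χ) / ζ(s)` has a real zero `≥ c`, forced by the archimedean factor
or by the removal of the Euler factor at the bad prime, and no poles at real `s > 0`, because `ζ` has no real zeros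
there; the prime powers contribute to the summatory function with a sign; and a one-sided bound of the logarithmic means
on one sequence of windows excludes all zeros and poles to the right of `c`, and bounds the order at `c` by `ρ`.
-/

set_option autoImplicit false

namespace Pool.Agent.Results.MP_a812b2_nt.CriticalMeans

open DirichletCharacter Pool.Agent.Q12.WN Pool.Agent.Q18.P
open Pool.Agent.W189.TP (PS)

/-- the five Satake parameters of `Sym⁴ f` -/
def sym4 {S : Finset Nat.Primes} (α β : PS S → ℂ) (p : PS S) (i : Fin 5) : ℂ :=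
  α p ^ (4 - (i : ℕ)) * β p ^ (i : ℕ)

/-- `λ_f(p⁴)` -/
def lam4 {S : Finset Nat.Primes} (α β : PS S → ℂ) (p : PS S) : ℂ :=
  α p ^ 4 + α p ^ 3 * β p + α p ^ 2 * β p ^ 2 + α p * β p ^ 3 + β p ^ 4

/-- What is used of a Maass newform with Laplace eigenvalue `lam`, `0 < lam < 1/4`, and Satake parameters `α p`, `β p` at
the primes `p ∉ S` (`S` contains the primes dividing the level and `q`): the analytic properties of the Rankin-Selberg
`L`-function of its fourth symmetric power, a cuspidal representation of `GL_5` which is not isomorphic to its twists by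
nontrivial characters modulo `q`; one of the archimedean factors is `Γ_ℝ(s - 8 r)`, `r = √(1/4 - lam)`. -/
structure ExceptionalMaassForm (S : Finset Nat.Primes) (q : ℕ) (α β : PS S → ℂ) (lam : ℝ) : Prop where
  /-- the eigenvalue is positive -/
  pos : 0 < lam
  /-- the eigenvalue is exceptional -/
  lt : lam < 1 / 4
  /-- `S` contains the primes dividing `q` -/
  mem : ∀ p : Nat.Primes, (p : ℕ) ∣ q → p ∈ S
  /-- the fourth symmetric power -/
  sym_four : ∃ (b : Nat.Primes → Fin (5 ^ 2) → ℂ) (κ : Fin (5 ^ 2) → ℂ),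
    IsobaricRep S 1 (sym4 α β) b κ ∧ ∃ j, κ j = -((8 * Real.sqrt (1 / 4 - lam) : ℝ) : ℂ)
  /-- the twists -/
  twists : ∀ χ : DirichletCharacter ℂ q, χ ≠ 1 → ∃ E : ℂ → ℂ, Differentiable ℂ E ∧
    ∀ s : ℂ, 1 < s.re → E s = Complex.exp (logQ S χ (tr2 (sym4 α β)) s)

theorem sum_sym4 {S : Finset Nat.Primes} (α β : PS S → ℂ) (p : PS S) : ∑ i, sym4 α β p i = lam4 α β p := by
  unfold sym4 lam4
  simp [Fin.sum_univ_succ]
  ring

open scoped Classical in
/-- `T_c(y) = log ∏_{p ≤ y} (1 - p^{-c})⁻¹ - |X| ∑_{p ≤ y, p ∈ S_X} |λ_f(p⁴)|² p^{-c}` -/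
noncomputable def T {S : Finset Nat.Primes} {q : ℕ} (α β : PS S → ℂ) (X : Subgroup (DirichletCharacter ℂ q))
    (c y : ℝ) : ℝ :=
  (-∑' p : Nat.Primes, if ((p : ℕ) : ℝ) ≤ y then Real.log (1 - ((p : ℕ) : ℝ) ^ (-c)) else 0) -
    Nat.card X * ∑' p : PS S, if ((p.1 : ℕ) : ℝ) ≤ y ∧ ∀ χ ∈ X, χ ((p.1 : ℕ) : ZMod q) = 1 then
      ‖lam4 α β p‖ ^ 2 * ((p.1 : ℕ) : ℝ) ^ (-c) else 0

open scoped Classical in
/-- **An eigenvalue `≤ 1/4 - (c/8)²` makes the logarithmic means at `c` unbounded, for the primes which split completely in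
any abelian field, at every scale.** -/
theorem result {S : Finset Nat.Primes} {q : ℕ} [NeZero q] {α β : PS S → ℂ} {lam : ℝ}
    (h : ExceptionalMaassForm S q α β lam) (X : Subgroup (DirichletCharacter ℂ q)) {c δ : ℝ} (hc : 0 < c)
    (hδ : 0 < δ) (hδ1 : δ < 1) (ρ B : ℝ)
    (hv : (lam < 1 / 4 - (c / 8) ^ 2 ∨ (∃ p : PS S, c / 8 < |Real.logb ((p.1 : ℕ) : ℝ) ‖α p‖|) ∨
        ∃ (F : ℂ → ℂ) (s : ℂ), MeromorphicOn F Set.univ ∧
          (∀ s : ℂ, 1 < s.re → F s * riemannZeta s =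
            Complex.exp (∑ χ : {χ // χ ∈ Pool.Agent.Y243.SP.XS X}, logQ S χ.1 (tr2 (sym4 α β)) s)) ∧
          c < s.re ∧ meromorphicOrderAt F s ≠ 0) ∨
      (ρ < 1 ∧ (lam = 1 / 4 - (c / 8) ^ 2 ∨ ∃ p : PS S, c / 8 = |Real.logb ((p.1 : ℕ) : ℝ) ‖α p‖|))) :
    ∃ Y₀ : ℝ, ∀ Y : ℝ, Y₀ ≤ Y →
      B * Real.log Y < ∫ y in (Y ^ (1 - δ))..Y, max (T α β X c y - ρ * Real.log (Real.log y)) 0 / y := by
  by_contra hcon
  push Not at hcon
  obtain ⟨b, κ, hrep, j, hj⟩ := h.sym_four
  set m : ℕ := (Pool.Agent.Y243.SP.XS X).card with hm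
  have hm0 : (0 : ℝ) < m := by
    exact_mod_cast Finset.card_pos.2 ⟨1, Pool.Agent.Y243.SP.mem_XS.2 X.one_mem⟩
  have hcard : (Nat.card X : ℝ) = m := by rw [card_XS X]
  have hunit : ∀ p : PS S, ∃ a : (ZMod q)ˣ, (a : ZMod q) = ((p.1 : ℕ) : ZMod q) := fun p => by
    have h1 : IsUnit (((p.1 : ℕ)) : ZMod q) := by
      rw [ZMod.isUnit_iff_coprime, Nat.Prime.coprime_iff_not_dvd p.1.2]
      exact fun h' => p.2 (h.mem p.1 h')
    exact ⟨h1.unit, rfl⟩
  have hwt : ∀ p : PS S, (∑ χ : {χ // χ ∈ Pool.Agent.Y243.SP.XS X}, χ.1 ((p.1 : ℕ) : ZMod q)).re =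
      if ∀ χ ∈ X, χ ((p.1 : ℕ) : ZMod q) = 1 then (m : ℝ) else 0 := by
    intro p
    obtain ⟨a, ha⟩ := hunit p
    rw [← ha, sum_group X a, Complex.ofReal_re]
  have hw : ∀ a : (ZMod q)ˣ, ∃ w : ℝ, 0 ≤ w ∧
      ∑ χ : {χ // χ ∈ Pool.Agent.Y243.SP.XS X}, χ.1 (a : ZMod q) = (w : ℂ) := by
    intro a
    refine ⟨_, ?_, sum_group X a⟩
    split_ifs
    · exact hm0.le
    · exact le_rfl
  let j₀ : {χ // χ ∈ Pool.Agent.Y243.SP.XS X} := ⟨1, Pool.Agent.Y243.SP.mem_XS.2 X.one_mem⟩
  have e1 : ∑ χ : {χ // χ ∈ Pool.Agent.Y243.SP.XS X}, (if χ.1 = 1 then 1 else 0 : ℕ) = 1 := by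
    rw [Finset.sum_eq_single j₀]
    · exact if_pos rfl
    · intro χ _ hχ
      exact if_neg fun h' => hχ (Subtype.ext h')
    · exact fun h' => absurd (Finset.mem_univ _) h'
  have hT : ∀ y, diffQ S (sym4 α β) (fun p => (∑ χ : {χ // χ ∈ Pool.Agent.Y243.SP.XS X}, χ.1 ((p.1 : ℕ) : ZMod q)).re)
      (∑ χ : {χ // χ ∈ Pool.Agent.Y243.SP.XS X}, (if χ.1 = 1 then 1 else 0 : ℕ)) c y = T α β X c y := by
    intro y
    unfold diffQ T zetaLog
    rw [e1, Nat.cast_one, one_mul, hcard, ← tsum_mul_left]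
    congr 1
    refine tsum_congr fun p => ?_
    simp only [hwt p, sum_sym4]
    by_cases hx : ((p.1 : ℕ) : ℝ) ≤ y
    · by_cases hX : ∀ χ ∈ X, χ ((p.1 : ℕ) : ZMod q) = 1
      · rw [if_pos hx, if_pos hX, if_pos ⟨hx, hX⟩]
        ring
      · rw [if_pos hx, if_neg hX, if_neg fun h' => hX h'.2, zero_mul, mul_zero, zero_mul]
    · rw [if_neg hx, if_neg fun h' => hx h'.1, mul_zero]
  obtain ⟨k1, k2, k3, k4, k5⟩ := rat_crit hrep h.mem hc (ι := {χ // χ ∈ Pool.Agent.Y243.SP.XS X}) (χ := fun χ => χ.1)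
    (e := fun χ => if χ.1 = 1 then 1 else 0) (j₀ := j₀) rfl (fun χ => by
      by_cases h1 : χ.1 = 1
      · exact Or.inl ⟨h1, if_pos h1⟩
      · obtain ⟨E, hE1, hE2⟩ := h.twists χ.1 h1
        refine Or.inr ⟨h1, E, hE1, fun s hs => ?_⟩
        rw [if_neg h1, pow_zero, one_mul]
        exact hE2 s hs) hw (ρ := ρ) (B := B) hδ hδ1 (fun Y₀ => by
      obtain ⟨Y, h1, h2⟩ := hcon Y₀
      refine ⟨Y, h1, ?_⟩
      simpa only [hT] using h2)
  have hlog : ∀ p : PS S, 2 * |Real.logb ((p.1 : ℕ) : ℝ) ‖sym4 α β p 0‖| = 8 * |Real.logb ((p.1 : ℕ) : ℝ) ‖α p‖| := by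
    intro p
    have e1 : sym4 α β p 0 = α p ^ 4 := by
      unfold sym4
      simp
    rw [e1, norm_pow, Real.logb_pow, abs_mul]
    have e2 : |((4 : ℕ) : ℝ)| = 4 := by norm_num
    rw [e2]
    ring
  have hsq : ∀ x : ℝ, lam ≤ 1 / 4 - (x / 8) ^ 2 → 0 < x → x ≤ 8 * Real.sqrt (1 / 4 - lam) := by
    intro x hx hx0
    have h1 : x / 8 ≤ Real.sqrt (1 / 4 - lam) := by
      refine Real.le_sqrt_of_sq_le ?_
      linarith
    linarith
  rcases hv with (hv | ⟨p, hp⟩ | ⟨F, s, hF, hFE, hs, ho⟩) | ⟨hρ, hv | ⟨p, hp⟩⟩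
  · have h1 : c / 8 < Real.sqrt (1 / 4 - lam) := by
      refine (Real.lt_sqrt (by linarith)).2 ?_
      linarith
    have := k3 j _ hj
    linarith
  · have := k1 p 0
    rw [hlog] at this
    linarith
  · refine ho ((k5 F hF fun s hs => ?_).1 s hs)
    rw [e1, pow_one]
    exact hFE s hs
  · have h1 := (k4 hρ).2.2 j _ hj
    have h2 := hsq c hv.le hc
    linarith
  · have := (k4 hρ).1 p 0
    rw [hlog] at this
    linarith

end Pool.Agent.Results.MP_a812b2_nt.CriticalMeans
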