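import Mathlib
import Pool.Agent.Q222.RK.Rat

/-!
# Selberg's eigenvalue conjecture: an exceptional eigenvalue forces doubly exponentially large means

Let `f` be a Maass cusp form for a congruence subgroup, a newform of level `N_f`, with Laplace eigenvalue
`0 < λ < 1/4`, i.e. a counterexample to Selberg's conjecture (a nonconstant square-integrable eigenfunction with
`0 < λ < 1/4` on any congruence surface is a combination of such forms, their oldforms and their translates), and let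
`α_p, β_p` be its Satake parameters, `A_p = diag(α_p, β_p)`.  Let `X` be any group of Dirichlet characters modulo `q`, `S` a
finite set which contains the primes dividing `N_f q`.  For `0 ≤ c < 1`, an integer `N ≥ 0` and `T > 0` put

  `M(T) = |X| ∑_{p ∉ S} ∑_{k ≤ N, χ(p^k) = 1 for all χ ∈ X} |tr Sym⁴(A_p^k)|² / (k p^{kc} Γ(1 + k log p / T))
          - ∑_p ∑_{k ≤ N} 1 / (k p^{kc} Γ(1 + k log p / T))`

(two absolutely convergent sums over prime powers; for `N = 1`, `tr Sym⁴(A_p) = λ_f(p⁴)`, and the first sum is over the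
primes which split completely in the abelian field which belongs to `X`).

**Theorem.**  (1) Let `x = 8 √(1/4 - λ)`, or `x = 8 |log_p |α_p||` for some `p ∉ S`.  If `x > c` and `(N + 1) x > 1`, then
for every `y < x - c`, `M(T) < - exp(exp(y T))` for ALL large `T`.

(2) Contrapositively: if `y ≥ 0`, `(N + 1) (c + y) ≥ 1` and `M(T) ≥ - exp(exp(y T))` for arbitrarily large `T`, then

  `λ ≥ 1/4 - ((c + y) / 8)²`   and   `|log_p |α_p|| ≤ (c + y) / 8` for all `p ∉ S`.

For `N = 1` and `c + y = 1/2` this is `λ ≥ 63/256`, for `N = 3` it is `λ ≥ 1/4 - 1/1024`; the known bound is `975/4096`.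

So an exceptional eigenvalue is visible in ONE weighted sum over the primes which split completely in any given abelian
field, for every value of the smoothing parameter `T`, and a lower bound `- exp(exp(T / 2))`, say, for this sum on one
sequence `T → ∞` excludes `λ < 63/256`.  `CriticalMeans`, `SplitPrimesBias`, `SmallEigenvaluesForceBias` (this run) have
sharp sums over `p ≤ x` and need bounds for all `x` in windows, or their means over windows; with prime powers the bound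
here tends to `1/4`.

The structure `ExceptionalMaassForm` lists what is used of `f`.  By Kim, `Sym⁴ f` is an automorphic representation of
`GL_5`, cuspidal by Kim and Shahidi (for `0 < λ < 1/4` the form `f` is not dihedral, tetrahedral or octahedral, as those
have `λ ≥ 1/4`).  `IsobaricRep` with `n = 5`, `r = 1`: the local components of `Sym⁴ f` at `p ∉ S` are unitary; the
Rankin-Selberg series converges absolutely for `Re s > 1`; `L(s, Sym⁴ f × Sym⁴ f~)` has a simple pole at `s = 1`, Euler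
factors of degree `≤ 25` at `p ∈ S`, and the completed function, with the archimedean factor `∏ Γ_ℝ(s + κ_j)`, times
`s (s - 1)` is entire; `Γ_ℝ(s - 8 r)`, `r = √(1/4 - λ)`, is one of its archimedean factors.  For `χ ≠ 1` the twist
`L^S(s, Sym⁴ f × Sym⁴ f~ × χ)` is entire: otherwise `Sym⁴ f ⊗ χ ≅ Sym⁴ f`, `χ` would have order `5`, and `Sym⁴ f` would be
induced from a unitary Hecke character of a cyclic quintic field (Arthur, Clozel), hence tempered at infinity.

The proof: `F(s) = ∏_{χ ∈ X} L^S(s, Sym⁴ f × Sym⁴ f~ × χ) / ζ(s)` has a real zero at `x`, forced by the archimedean factor or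
by the removal of the Euler factor at `p`, and no poles at real `s > 0`; a Mittag-Leffler mean of the coefficients of
`log F` over all prime powers is then of the size `- exp(exp((β - c) T))`, `β ≥ x` the largest real zero.
-/

set_option autoImplicit false

namespace Pool.Agent.Results.MP_a812b2_nt.DoublyExponentialBias

open DirichletCharacter Pool.Agent.Q12.WN
open Pool.Agent.W189.TP (PS)

/-- the five Satake parameters of `Sym⁴ f` -/
def sym4 {S : Finset Nat.Primes} (α β : PS S → ℂ) (p : PS S) (i : Fin 5) : ℂ :=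
  α p ^ (4 - (i : ℕ)) * β p ^ (i : ℕ)

/-- What is used of a Maass newform with Laplace eigenvalue `lam`, `0 < lam < 1/4`, and Satake parameters `α p`, `β p` at
the primes `p ∉ S` (`S` contains the primes dividing the level and `q`): the analytic properties of the Rankin-Selberg
`L`-function of its fourth symmetric power, a cuspidal representation of `GL_5` which is not isomorphic to its twists by
nontrivial characters modulo `q`; one of the archimedean factors is `Γ_ℝ(s - 8 r)`, `r = √(1/4 - lam)`. -/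
structure ExceptionalMaassForm (S : Finset Nat.Primes) (q : ℕ) (α β : PS S → ℂ) (lam : ℝ) : Prop where
  /-- the eigenvalue is positive -/
  pos : 0 < lam
  /-- the eigenvalue is exceptional -/
  lt : lam < 1 / 4
  /-- `S` contains the primes dividing `q` -/
  mem : ∀ p : Nat.Primes, (p : ℕ) ∣ q → p ∈ S
  /-- the fourth symmetric power -/
  sym_four : ∃ (b : Nat.Primes → Fin (5 ^ 2) → ℂ) (κ : Fin (5 ^ 2) → ℂ),
    IsobaricRep S 1 (sym4 α β) b κ ∧ ∃ j, κ j = -((8 * Real.sqrt (1 / 4 - lam) : ℝ) : ℂ)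
  /-- the twists -/
  twists : ∀ χ : DirichletCharacter ℂ q, χ ≠ 1 → ∃ E : ℂ → ℂ, Differentiable ℂ E ∧
    ∀ s : ℂ, 1 < s.re → E s = Complex.exp (logQ S χ (tr2 (sym4 α β)) s)

/-- the weight `1 / (k x^{k c} Γ(1 + k log x / T))` of the power `x ^ k` -/
noncomputable def weight (c T x : ℝ) (k : ℕ) : ℝ :=
  1 / ((k : ℝ) * x ^ ((k : ℝ) * c) * Real.Gamma (1 + (k : ℝ) * Real.log x / T))

open scoped Classical in
/-- `|X| ∑_{p ∉ S} ∑_{1 ≤ k ≤ N, χ(p^k) = 1 for all χ ∈ X} |tr Sym⁴(A_p^k)|² weight(p, k) - ∑_p ∑_{1 ≤ k ≤ N} weight(p, k)` -/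
noncomputable def M {S : Finset Nat.Primes} {q : ℕ} (α β : PS S → ℂ) (X : Subgroup (DirichletCharacter ℂ q))
    (c : ℝ) (N : ℕ) (T : ℝ) : ℝ :=
  Nat.card X * (∑' p : PS S, ∑ k ∈ Finset.Icc 1 N,
    if ∀ χ ∈ X, χ (((p.1 : ℕ) ^ k : ℕ) : ZMod q) = 1 then
      ‖∑ i, sym4 α β p i ^ k‖ ^ 2 * weight c T ((p.1 : ℕ) : ℝ) k else 0) -
    ∑' p : Nat.Primes, ∑ k ∈ Finset.Icc 1 N, weight c T ((p : ℕ) : ℝ) k

theorem part {S : Finset Nat.Primes} {q : ℕ} [NeZero q] {α β : PS S → ℂ} {lam : ℝ}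
    (h : ExceptionalMaassForm S q α β lam) (X : Subgroup (DirichletCharacter ℂ q)) {c y : ℝ} (hc0 : 0 ≤ c)
    (hc1 : c < 1) (N : ℕ) (hy : 0 ≤ y) (hN : 1 ≤ ((N : ℝ) + 1) * (c + y))
    (hT : ∀ T₀ : ℝ, ∃ T : ℝ, T₀ ≤ T ∧ -Real.exp (Real.exp (y * T)) ≤ M α β X c N T) :
    8 * Real.sqrt (1 / 4 - lam) ≤ c + y ∧ ∀ p : PS S, 8 * |Real.logb ((p.1 : ℕ) : ℝ) ‖α p‖| ≤ c + y := by
  classical
  obtain ⟨b, κ, hrep, j, hj⟩ := h.sym_four
  set m : ℕ := (Pool.Agent.Y243.SP.XS X).card with hm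
  have hm0 : (0 : ℝ) < m := by
    exact_mod_cast Finset.card_pos.2 ⟨1, Pool.Agent.Y243.SP.mem_XS.2 X.one_mem⟩
  have hcard : (Nat.card X : ℝ) = m := by
    rw [hm, Nat.card_eq_fintype_card, Fintype.card_of_subtype]
    intro χ
    exact Pool.Agent.Y243.SP.mem_XS
  have hunit : ∀ p : PS S, ∃ a : (ZMod q)ˣ, (a : ZMod q) = ((p.1 : ℕ) : ZMod q) := fun p => by
    have h1 : IsUnit (((p.1 : ℕ)) : ZMod q) := by
      rw [ZMod.isUnit_iff_coprime, Nat.Prime.coprime_iff_not_dvd p.1.2]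
      exact fun h' => p.2 (h.mem p.1 h')
    exact ⟨h1.unit, rfl⟩
  have hwt : ∀ (p : PS S) (k : ℕ), (∑ χ : {χ // χ ∈ Pool.Agent.Y243.SP.XS X}, χ.1 ((p.1 : ℕ) : ZMod q) ^ k).re =
      if ∀ χ ∈ X, χ (((p.1 : ℕ) ^ k : ℕ) : ZMod q) = 1 then (m : ℝ) else 0 := by
    intro p k
    obtain ⟨a, ha⟩ := hunit p
    have e1 : ((a ^ k : (ZMod q)ˣ) : ZMod q) = (((p.1 : ℕ) ^ k : ℕ) : ZMod q) := by
      rw [Units.val_pow_eq_pow_val, ha]
      push_cast
      rfl
    have e2 : ∑ χ : {χ // χ ∈ Pool.Agent.Y243.SP.XS X}, χ.1 ((p.1 : ℕ) : ZMod q) ^ k =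
        ∑ χ : {χ // χ ∈ Pool.Agent.Y243.SP.XS X}, χ.1 ((a ^ k : (ZMod q)ˣ) : ZMod q) := by
      refine Finset.sum_congr rfl fun χ _ => ?_
      rw [Units.val_pow_eq_pow_val, map_pow, ha]
    rw [e2, sum_group X (a ^ k), Complex.ofReal_re, e1]
  have hw : ∀ a : (ZMod q)ˣ, ∃ w : ℝ, 0 ≤ w ∧
      ∑ χ : {χ // χ ∈ Pool.Agent.Y243.SP.XS X}, χ.1 (a : ZMod q) = (w : ℂ) := by
    intro a
    refine ⟨_, ?_, sum_group X a⟩
    split_ifs
    · exact hm0.le
    · exact le_rfl
  let j₀ : {χ // χ ∈ Pool.Agent.Y243.SP.XS X} := ⟨1, Pool.Agent.Y243.SP.mem_XS.2 X.one_mem⟩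
  have e1 : ∑ χ : {χ // χ ∈ Pool.Agent.Y243.SP.XS X}, (if χ.1 = 1 then 1 else 0 : ℕ) = 1 := by
    rw [Finset.sum_eq_single j₀]
    · exact if_pos rfl
    · intro χ _ hχ
      exact if_neg fun h' => hχ (Subtype.ext h')
    · exact fun h' => absurd (Finset.mem_univ _) h'
  have hM : ∀ T, Pool.Agent.Q222.RK.meanQ (sym4 α β)
      (fun p k => (∑ χ : {χ // χ ∈ Pool.Agent.Y243.SP.XS X}, χ.1 ((p.1 : ℕ) : ZMod q) ^ k).re)
      (∑ χ : {χ // χ ∈ Pool.Agent.Y243.SP.XS X}, (if χ.1 = 1 then 1 else 0 : ℕ)) c N T = M α β X c N T := by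
    intro T
    unfold Pool.Agent.Q222.RK.meanQ M
    rw [e1, Nat.cast_one, one_mul, hcard, ← tsum_mul_left]
    congr 1
    refine tsum_congr fun p => ?_
    rw [Finset.mul_sum]
    refine Finset.sum_congr rfl fun k _ => ?_
    simp only [hwt p]
    by_cases hX : ∀ χ ∈ X, χ (((p.1 : ℕ) ^ k : ℕ) : ZMod q) = 1
    · rw [if_pos hX, if_pos hX, mul_assoc]
      rfl
    · rw [if_neg hX, if_neg hX, mul_zero, zero_mul, zero_mul]
  obtain ⟨k1, -, k3⟩ := Pool.Agent.Q222.RK.rat hrep h.mem (ι := {χ // χ ∈ Pool.Agent.Y243.SP.XS X})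
    (χ := fun χ => χ.1) (e := fun χ => if χ.1 = 1 then 1 else 0) (j₀ := j₀) rfl (fun χ => by
      by_cases h1 : χ.1 = 1
      · exact Or.inl ⟨h1, if_pos h1⟩
      · obtain ⟨E, hE1, hE2⟩ := h.twists χ.1 h1
        refine Or.inr ⟨h1, E, hE1, fun s hs => ?_⟩
        rw [if_neg h1, pow_zero, one_mul]
        exact hE2 s hs) hw hc0 hc1 (b := c + y) (by linarith) N hN (fun y' hy' => by
      refine Filter.frequently_atTop.2 fun T₀ => ?_
      obtain ⟨T, h1, h2⟩ := hT (max T₀ 0)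
      refine ⟨T, (le_max_left _ _).trans h1, ?_⟩
      rw [hM]
      have h3 : Pool.Agent.Q222.RK.ee y T ≤ Pool.Agent.Q222.RK.ee y' T :=
        Pool.Agent.Q222.RK.ee_mono ((le_max_right _ _).trans h1) (by linarith)
      have h4 : -Pool.Agent.Q222.RK.ee y T ≤ M α β X c N T := h2
      linarith)
  refine ⟨k3 j _ hj, fun p => ?_⟩
  have h5 := k1 p 0
  have e3 : sym4 α β p 0 = α p ^ 4 := by
    unfold sym4
    simp
  rw [e3, norm_pow, Real.logb_pow, abs_mul] at h5
  have e4 : |((4 : ℕ) : ℝ)| = 4 := by norm_num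
  rw [e4] at h5
  linarith

/-- **An exceptional eigenvalue forces doubly exponentially large values of the means over prime powers which are
norms from any abelian field.** -/
theorem result {S : Finset Nat.Primes} {q : ℕ} [NeZero q] {α β : PS S → ℂ} {lam : ℝ}
    (h : ExceptionalMaassForm S q α β lam) (X : Subgroup (DirichletCharacter ℂ q)) {c : ℝ} (hc0 : 0 ≤ c)
    (hc1 : c < 1) (N : ℕ) :
    (∀ x y : ℝ, (x = 8 * Real.sqrt (1 / 4 - lam) ∨ ∃ p : PS S, x = 8 * |Real.logb ((p.1 : ℕ) : ℝ) ‖α p‖|) →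
      c < x → 1 < ((N : ℝ) + 1) * x → y < x - c →
      ∃ T₀ : ℝ, ∀ T : ℝ, T₀ ≤ T → M α β X c N T < -Real.exp (Real.exp (y * T))) ∧
    (∀ y : ℝ, 0 ≤ y → 1 ≤ ((N : ℝ) + 1) * (c + y) →
      (∀ T₀ : ℝ, ∃ T : ℝ, T₀ ≤ T ∧ -Real.exp (Real.exp (y * T)) ≤ M α β X c N T) →
      1 / 4 - ((c + y) / 8) ^ 2 ≤ lam ∧ ∀ p : PS S, |Real.logb ((p.1 : ℕ) : ℝ) ‖α p‖| ≤ (c + y) / 8) := by
  have hN0 : (0 : ℝ) < (N : ℝ) + 1 := by positivity
  constructor
  · intro x y hx hcx hNx hyx
    by_contra hcon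
    push Not at hcon
    set y' : ℝ := max (max y 0) (1 / ((N : ℝ) + 1) - c) with hy'
    have h1 : y ≤ y' := (le_max_left _ _).trans (le_max_left _ _)
    have h2 : 0 ≤ y' := (le_max_right _ _).trans (le_max_left _ _)
    have h3 : 1 / ((N : ℝ) + 1) - c ≤ y' := le_max_right _ _
    have h4 : y' < x - c := by
      refine max_lt (max_lt hyx (by linarith)) ?_
      have : 1 / ((N : ℝ) + 1) < x := by
        rw [div_lt_iff₀ hN0]
        linarith
      linarith
    have h5 : 1 ≤ ((N : ℝ) + 1) * (c + y') := by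
      have : 1 / ((N : ℝ) + 1) ≤ c + y' := by linarith
      rw [div_le_iff₀ hN0] at this
      linarith
    obtain ⟨k1, k2⟩ := part h X hc0 hc1 N h2 h5 (fun T₀ => by
      obtain ⟨T, h6, h7⟩ := hcon (max T₀ 0)
      refine ⟨T, (le_max_left _ _).trans h6, ?_⟩
      have h8 : Pool.Agent.Q222.RK.ee y T ≤ Pool.Agent.Q222.RK.ee y' T :=
        Pool.Agent.Q222.RK.ee_mono ((le_max_right _ _).trans h6) h1
      have h9 : -Pool.Agent.Q222.RK.ee y T ≤ M α β X c N T := h7
      have h10 : Real.exp (Real.exp (y' * T)) = Pool.Agent.Q222.RK.ee y' T := rfl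
      rw [h10]
      linarith)
    rcases hx with rfl | ⟨p, rfl⟩
    · linarith
    · have := k2 p
      linarith
  · intro y hy hN hT
    obtain ⟨k1, k2⟩ := part h X hc0 hc1 N hy hN hT
    refine ⟨?_, fun p => by
      have := k2 p
      linarith⟩
    have h1 : Real.sqrt (1 / 4 - lam) ≤ (c + y) / 8 := by linarith
    have h2 : 1 / 4 - lam ≤ ((c + y) / 8) ^ 2 := (Real.sqrt_le_left (by positivity)).1 h1
    linarith

end Pool.Agent.Results.MP_a812b2_nt.DoublyExponentialBias
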