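import Mathlib
import Pool.Agent.Q12.WN.RatPi
import Pool.Agent.Q12.WN.SphPi

/-!
# Selberg's eigenvalue conjecture: eigenvalues `< 63/256` force a bias among the primes `p ≡ 1 mod q`, at every scale

Let `f` be a Maass cusp form for a congruence subgroup, a newform of level `N`, with Laplace eigenvalue
`0 < λ < 1/4`, i.e. a counterexample to Selberg's conjecture (a nonconstant square-integrable eigenfunction with
`0 < λ < 1/4` on any congruence surface is a combination of such forms, their oldforms and their translates).  Let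
`α_p, β_p` be its Satake parameters and `λ_f(p⁴) = α_p⁴ + α_p³β_p + α_p²β_p² + α_pβ_p³ + β_p⁴` the normalised
eigenvalues of `T_{p⁴}`.  Let `X` be any group of Dirichlet characters modulo `q`, and `S_X` the set of the primes `p ∤ N q`
with `χ(p) = 1` for all `χ ∈ X`, i.e. which split completely in the abelian number field which belongs to `X` (for
the group of all characters: `p ≡ 1 mod q`, `p ∤ N`).  By the prime number theorem for the twists of
`L(s, Sym⁴ f × Sym⁴ f~)`,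

  `∑_{p ≤ x, p ∈ S_X} |λ_f(p⁴)|² = π(x) / |X| + o(x / log x)`.

We show: let `c ≥ 1/2` and

  `λ < 1/4 - (c/8)²`    (for `c = 1/2` this is `λ < 63/256`; the open range is `975/4096 ≤ λ < 1/4`, Kim and Sarnak),

or `|log_p |α_p|| > c/8` for one prime `p ∤ N q`.  Then for **every** group `X`, all `δ > 0`, `A > 0` and all large `Y`
there is an `x ∈ [Y^{1-δ}, Y]` with

  `∑_{p ≤ x, p ∈ S_X} |λ_f(p⁴)|² ≤ π(x) / |X| - A x^c`.

Nothing is assumed of the zeros of the functions `L(s, χ)`.  Contrapositively: if for ONE `q` and ONE group `X` of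
characters modulo `q`, one `c ≥ 1/2` and one sequence `Y → ∞`, the one-sided bound
`∑_{p ≤ x, p ∈ S_X} |λ_f(p⁴)|² > π(x) / |X| - A x^c` holds for `x ∈ [Y^{1-δ}, Y]`, then `λ ≥ 1/4 - (c/8)²`, better than
the bound of Kim and Sarnak if `c < 7/8`; the expected size of the difference is `x^{1/2 + ε}`.

If moreover no `L(s, χ)`, `χ ∈ X`, has a real zero in `(c, 1)` (for the divisors `q` of `24` this is proved here, for
the other `q` it is a hypothesis) then also `∑_{p ≤ x, p ∈ S_X} (1 - |λ_f(p⁴)|²) ≥ A x^c` for some `x ∈ [Y^{1-δ}, Y]`;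
so there are primes `p ≡ 1 mod q`, `Y^{c(1-δ)} ≤ p ≤ Y`, with `|λ_f(p⁴)| < 1`, for all large `Y`.

`SmallEigenvaluesForceBias` of this problem (this run) is the case of the sums over all primes `p ∤ N`.

The structure `ExceptionalMaassForm` lists what is used of `f`, `S` being a finite set which contains the primes dividing
`N q`.  By Kim, `Sym⁴ f` is an automorphic representation of `GL_5`, cuspidal by Kim and Shahidi (for `0 < λ < 1/4` the
form `f` is not dihedral, tetrahedral or octahedral, as those have `λ ≥ 1/4`).  `IsobaricRep` with `n = 5`, `r = 1`: the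
local components of `Sym⁴ f` at `p ∉ S` are unitary; the Rankin-Selberg series converges absolutely for `Re s > 1`;
`L(s, Sym⁴ f × Sym⁴ f~)` has a simple pole at `s = 1`, Euler factors of degree `≤ 25` at `p ∈ S`, and the completed
function, with the archimedean factor `∏ Γ_ℝ(s + κ_j)`, times `s (s - 1)` is entire; `Γ_ℝ(s - 8 r)`, `r = √(1/4 - λ)`,
is one of its archimedean factors.  For `χ ≠ 1` the twist `L^S(s, Sym⁴ f × Sym⁴ f~ × χ)` is entire: otherwise
`Sym⁴ f ⊗ χ ≅ Sym⁴ f`, `χ` would have order `5`, and `Sym⁴ f` would be induced from a unitary Hecke character of a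
cyclic quintic field (Arthur, Clozel), hence tempered at infinity, which it is not.

The proof: `F(s) = ∏_{χ ∈ X} L^S(s, Sym⁴ f × Sym⁴ f~ × χ) / ζ(s)` has a real zero `> c`, forced by the archimedean factor
or by the removal of the Euler factor at the bad prime, and no poles at real `s > 0`; the coefficients of `-log F` are
bounded from above.  A localised explicit formula at a real and at a complex point shows that their summatory function
takes large positive values in every window.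
-/

set_option autoImplicit false

namespace Pool.Agent.Results.MP_a812b2_nt.SplitPrimesBias

open DirichletCharacter Pool.Agent.Q12.WN
open Pool.Agent.W189.TP (PS)

/-- the five Satake parameters of `Sym⁴ f` -/
def sym4 {S : Finset Nat.Primes} (α β : PS S → ℂ) (p : PS S) (i : Fin 5) : ℂ :=
  α p ^ (4 - (i : ℕ)) * β p ^ (i : ℕ)

/-- `λ_f(p⁴)` -/
def lam4 {S : Finset Nat.Primes} (α β : PS S → ℂ) (p : PS S) : ℂ :=
  α p ^ 4 + α p ^ 3 * β p + α p ^ 2 * β p ^ 2 + α p * β p ^ 3 + β p ^ 4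

/-- What is used of a Maass newform with Laplace eigenvalue `lam`, `0 < lam < 1/4`, and Satake parameters `α p`, `β p` at
the primes `p ∉ S` (`S` contains the primes dividing the level and `q`): the analytic properties of the Rankin-Selberg
`L`-function of its fourth symmetric power, a cuspidal representation of `GL_5` which is not isomorphic to its twists by
nontrivial characters modulo `q`; one of the archimedean factors is `Γ_ℝ(s - 8 r)`, `r = √(1/4 - lam)`. -/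
structure ExceptionalMaassForm (S : Finset Nat.Primes) (q : ℕ) (α β : PS S → ℂ) (lam : ℝ) : Prop where
  /-- the eigenvalue is positive -/
  pos : 0 < lam
  /-- the eigenvalue is exceptional -/
  lt : lam < 1 / 4
  /-- `S` contains the primes dividing `q` -/
  mem : ∀ p : Nat.Primes, (p : ℕ) ∣ q → p ∈ S
  /-- the fourth symmetric power -/
  sym_four : ∃ (b : Nat.Primes → Fin (5 ^ 2) → ℂ) (κ : Fin (5 ^ 2) → ℂ),
    IsobaricRep S 1 (sym4 α β) b κ ∧ ∃ j, κ j = -((8 * Real.sqrt (1 / 4 - lam) : ℝ) : ℂ)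
  /-- the twists -/
  twists : ∀ χ : DirichletCharacter ℂ q, χ ≠ 1 → ∃ E : ℂ → ℂ, Differentiable ℂ E ∧
    ∀ s : ℂ, 1 < s.re → E s = Complex.exp (logQ S χ (tr2 (sym4 α β)) s)

theorem sum_sym4 {S : Finset Nat.Primes} (α β : PS S → ℂ) (p : PS S) : ∑ i, sym4 α β p i = lam4 α β p := by
  unfold sym4 lam4
  simp [Fin.sum_univ_succ]
  ring

open scoped Classical in
/-- **An eigenvalue `< 1/4 - (c/8)²` forces a bias of `|λ_f(p⁴)|²` among the primes which split completely in any abelian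
field, at every scale.** -/
theorem result {S : Finset Nat.Primes} {q : ℕ} [NeZero q] {α β : PS S → ℂ} {lam : ℝ}
    (h : ExceptionalMaassForm S q α β lam) (X : Subgroup (DirichletCharacter ℂ q)) {c δ : ℝ} (hc : 1 / 2 ≤ c)
    (hδ : 0 < δ) (hv : lam < 1 / 4 - (c / 8) ^ 2 ∨ ∃ p : PS S, c / 8 < |Real.logb ((p.1 : ℕ) : ℝ) ‖α p‖|) (A : ℝ) :
    (∃ Y₀ : ℝ, ∀ Y : ℝ, Y₀ ≤ Y → ∃ x : ℝ, Y ^ (1 - δ) ≤ x ∧ x ≤ Y ∧
      (∑' p : PS S, if ((p.1 : ℕ) : ℝ) ≤ x ∧ ∀ χ ∈ X, χ ((p.1 : ℕ) : ZMod q) = 1 then ‖lam4 α β p‖ ^ 2 else 0) ≤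
        (Nat.primeCounting ⌊x⌋₊ : ℝ) / Nat.card X - A * x ^ c) ∧
    ((q ∣ 24 ∨ ∀ χ ∈ X, ∀ σ : ℝ, c < σ → σ < 1 → LFunction χ σ ≠ 0) →
      ∃ Y₀ : ℝ, ∀ Y : ℝ, Y₀ ≤ Y → ∃ x : ℝ, Y ^ (1 - δ) ≤ x ∧ x ≤ Y ∧
        A * x ^ c ≤ ∑' p : PS S,
          if ((p.1 : ℕ) : ℝ) ≤ x ∧ ∀ χ ∈ X, χ ((p.1 : ℕ) : ZMod q) = 1 then 1 - ‖lam4 α β p‖ ^ 2 else 0) := by
  obtain ⟨b, κ, hrep, j, hj⟩ := h.sym_four
  have hbad : BadPlaceQ S (sym4 α β) b κ c := by
    rcases hv with hv | ⟨p, hp⟩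
    · refine Or.inr (Or.inr ⟨j, 8 * Real.sqrt (1 / 4 - lam), hj, ?_⟩)
      have h1 : c / 8 < Real.sqrt (1 / 4 - lam) := by
        refine (Real.lt_sqrt (by linarith)).2 ?_
        linarith
      linarith
    · refine Or.inl ⟨p, 0, ?_⟩
      have e1 : sym4 α β p 0 = α p ^ 4 := by
        unfold sym4
        simp
      rw [e1, norm_pow, Real.logb_pow, abs_mul]
      have e2 : |((4 : ℕ) : ℝ)| = 4 := by norm_num
      rw [e2]
      linarith
  set m : ℕ := (Pool.Agent.Y243.SP.XS X).card with hm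
  have hm0 : (0 : ℝ) < m := by
    exact_mod_cast Finset.card_pos.2 ⟨1, Pool.Agent.Y243.SP.mem_XS.2 X.one_mem⟩
  have hcard : (Nat.card X : ℝ) = m := by rw [card_XS X]
  have hunit : ∀ p : PS S, ∃ a : (ZMod q)ˣ, (a : ZMod q) = ((p.1 : ℕ) : ZMod q) := fun p => by
    have h1 : IsUnit (((p.1 : ℕ)) : ZMod q) := by
      rw [ZMod.isUnit_iff_coprime, Nat.Prime.coprime_iff_not_dvd p.1.2]
      exact fun h' => p.2 (h.mem p.1 h')
    exact ⟨h1.unit, rfl⟩
  have hwt : ∀ p : PS S, (∑ χ : {χ // χ ∈ Pool.Agent.Y243.SP.XS X}, χ.1 ((p.1 : ℕ) : ZMod q)).re =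
      if ∀ χ ∈ X, χ ((p.1 : ℕ) : ZMod q) = 1 then (m : ℝ) else 0 := by
    intro p
    obtain ⟨a, ha⟩ := hunit p
    rw [← ha, sum_group X a, Complex.ofReal_re]
  have hw : ∀ a : (ZMod q)ˣ, ∃ w : ℝ, 0 ≤ w ∧
      ∑ χ : {χ // χ ∈ Pool.Agent.Y243.SP.XS X}, χ.1 (a : ZMod q) = (w : ℂ) := by
    intro a
    refine ⟨_, ?_, sum_group X a⟩
    split_ifs
    · exact hm0.le
    · exact le_rfl
  let j₀ : {χ // χ ∈ Pool.Agent.Y243.SP.XS X} := ⟨1, Pool.Agent.Y243.SP.mem_XS.2 X.one_mem⟩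
  refine ⟨?_, fun hz => ?_⟩
  · have key := rat_pi hrep h.mem hc (ι := {χ // χ ∈ Pool.Agent.Y243.SP.XS X}) (χ := fun χ => χ.1)
      (e := fun χ => if χ.1 = 1 then 1 else 0) (j₀ := j₀) rfl (fun χ => by
        by_cases h1 : χ.1 = 1
        · exact Or.inl ⟨h1, if_pos h1⟩
        · obtain ⟨E, hE1, hE2⟩ := h.twists χ.1 h1
          refine Or.inr ⟨h1, E, hE1, fun s hs => ?_⟩
          rw [if_neg h1, pow_zero, one_mul]
          exact hE2 s hs) hw (Or.inl hbad) hδ (A * m)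
    obtain ⟨Y₀, hY₀⟩ := Filter.eventually_atTop.1 key
    refine ⟨Y₀, fun Y hY => ?_⟩
    obtain ⟨x, h1, h2, h3⟩ := hY₀ Y hY
    refine ⟨x, h1, h2, ?_⟩
    have e1 : ∑ χ : {χ // χ ∈ Pool.Agent.Y243.SP.XS X}, (if χ.1 = 1 then 1 else 0 : ℕ) = 1 := by
      rw [Finset.sum_eq_single j₀]
      · exact if_pos rfl
      · intro χ _ hχ
        exact if_neg fun h' => hχ (Subtype.ext h')
      · exact fun h' => absurd (Finset.mem_univ _) h'
    rw [e1, Nat.cast_one, one_mul] at h3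
    have e2 : (∑' p : PS S, if ((p.1 : ℕ) : ℝ) ≤ x then
        (∑ χ : {χ // χ ∈ Pool.Agent.Y243.SP.XS X}, χ.1 ((p.1 : ℕ) : ZMod q)).re * ‖∑ i, sym4 α β p i‖ ^ 2 else 0) =
        m * ∑' p : PS S, if ((p.1 : ℕ) : ℝ) ≤ x ∧ ∀ χ ∈ X, χ ((p.1 : ℕ) : ZMod q) = 1 then
          ‖lam4 α β p‖ ^ 2 else 0 := by
      rw [← tsum_mul_left]
      refine tsum_congr fun p => ?_
      rw [hwt p, sum_sym4]
      by_cases hx : ((p.1 : ℕ) : ℝ) ≤ x
      · by_cases hX : ∀ χ ∈ X, χ ((p.1 : ℕ) : ZMod q) = 1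
        · rw [if_pos hx, if_pos hX, if_pos ⟨hx, hX⟩]
        · rw [if_pos hx, if_neg hX, if_neg fun h' => hX h'.2, zero_mul, mul_zero]
      · rw [if_neg hx, if_neg fun h' => hx h'.1, mul_zero]
    rw [e2] at h3
    rw [hcard, le_sub_iff_add_le, le_div_iff₀ hm0]
    calc _ = (m : ℝ) * (∑' p : PS S, if ((p.1 : ℕ) : ℝ) ≤ x ∧ ∀ χ ∈ X, χ ((p.1 : ℕ) : ZMod q) = 1 then
          ‖lam4 α β p‖ ^ 2 else 0) + A * m * x ^ c := by ring
      _ ≤ _ := h3
  · have hz' : ∀ χ : {χ // χ ∈ Pool.Agent.Y243.SP.XS X}, ∀ σ : ℝ, c < σ → σ < 1 → LFunction χ.1 σ ≠ 0 := by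
      intro χ σ h1 h2
      rcases hz with hq | hz
      · exact Pool.Agent.Y243.SP.ne_of_dvd hq χ.1 (by linarith) h2
      · exact hz χ.1 (Pool.Agent.Y243.SP.mem_XS.1 χ.2) σ h1 h2
    have key := rat_main hrep h.mem hc (ι := {χ // χ ∈ Pool.Agent.Y243.SP.XS X}) (χ := fun χ => χ.1)
      (j₀ := j₀) rfl hz' (fun χ h1 => h.twists χ.1 h1) hw (Or.inl hbad) hδ (A * m)
    obtain ⟨Y₀, hY₀⟩ := Filter.eventually_atTop.1 key
    refine ⟨Y₀, fun Y hY => ?_⟩
    obtain ⟨x, h1, h2, h3⟩ := hY₀ Y hY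
    refine ⟨x, h1, h2, ?_⟩
    have e2 : (∑' p : PS S, if ((p.1 : ℕ) : ℝ) ≤ x then
        (∑ χ : {χ // χ ∈ Pool.Agent.Y243.SP.XS X}, χ.1 ((p.1 : ℕ) : ZMod q)).re *
          (((1 : ℕ) : ℝ) - ‖∑ i, sym4 α β p i‖ ^ 2) else 0) =
        m * ∑' p : PS S, if ((p.1 : ℕ) : ℝ) ≤ x ∧ ∀ χ ∈ X, χ ((p.1 : ℕ) : ZMod q) = 1 then
          1 - ‖lam4 α β p‖ ^ 2 else 0 := by
      rw [← tsum_mul_left]
      refine tsum_congr fun p => ?_
      rw [hwt p, sum_sym4, Nat.cast_one]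
      by_cases hx : ((p.1 : ℕ) : ℝ) ≤ x
      · by_cases hX : ∀ χ ∈ X, χ ((p.1 : ℕ) : ZMod q) = 1
        · rw [if_pos hx, if_pos hX, if_pos ⟨hx, hX⟩]
        · rw [if_pos hx, if_neg hX, if_neg fun h' => hX h'.2, zero_mul, mul_zero]
      · rw [if_neg hx, if_neg fun h' => hx h'.1, mul_zero]
    rw [e2] at h3
    refine le_of_mul_le_mul_left (le_trans (le_of_eq ?_) h3) hm0
    ring

end Pool.Agent.Results.MP_a812b2_nt.SplitPrimesBias
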